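import Pool.Agent.Q253.LQ.Stm

/-! Project LQ (helper253), job LQ-CT (helper174). -/

set_option autoImplicit false

namespace Pool.Agent.Q174.LQ

open MeasureTheory Filter Topology Set Complex Metric
open Pool.Agent.Q253.LQ

/-! ### The Bessel function `I₀` -/

/-- the terms -/
noncomputable def tm (k : ℕ) (w : ℂ) : ℂ := (w / 2) ^ (2 * k) / ((Nat.factorial k : ℂ) ^ 2)

lemma fact_sq (k : ℕ) : (1 : ℝ) ≤ (Nat.factorial k : ℝ) ^ 2 := by
  have h : (1 : ℝ) ≤ (Nat.factorial k : ℝ) := by exact_mod_cast Nat.factorial_pos k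
  nlinarith

lemma norm_tm (k : ℕ) (w : ℂ) :
    ‖tm k w‖ = (‖w‖ ^ 2 / 4) ^ k / ((Nat.factorial k : ℝ) ^ 2) := by
  unfold tm
  rw [norm_div, norm_pow, norm_div, norm_pow, pow_mul]
  simp only [Complex.norm_ofNat, Complex.norm_natCast]
  congr 2
  ring

lemma norm_tm_le (k : ℕ) (w : ℂ) : ‖tm k w‖ ≤ (‖w‖ ^ 2 / 4) ^ k := by
  rw [norm_tm]
  exact div_le_self (by positivity) (fact_sq k)

lemma norm_tm_le' (k : ℕ) (w : ℂ) {R : ℝ} (hw : ‖w‖ ≤ R) :
    ‖tm k w‖ ≤ (R ^ 2 / 4) ^ k / (Nat.factorial k : ℝ) := by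
  rw [norm_tm]
  have h : (1 : ℝ) ≤ (Nat.factorial k : ℝ) := by exact_mod_cast Nat.factorial_pos k
  have h0 : (‖w‖ ^ 2 / 4) ^ k ≤ (R ^ 2 / 4) ^ k := by gcongr
  refine div_le_div₀ ((by positivity : (0 : ℝ) ≤ (‖w‖ ^ 2 / 4) ^ k).trans h0) h0 (by linarith) ?_
  nlinarith

lemma summable_tm (w : ℂ) : Summable fun k => tm k w := by
  refine Summable.of_norm_bounded (Real.summable_pow_div_factorial (‖w‖ ^ 2 / 4)) fun k => ?_
  exact norm_tm_le' k w le_rfl

lemma I0_eq (w : ℂ) : I0 w = ∑' k, tm k w := rfl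

lemma diff_I0 : Differentiable ℂ I0 := by
  intro w
  have h : DifferentiableOn ℂ (fun w : ℂ => ∑' k, tm k w) (ball 0 (‖w‖ + 1)) := by
    refine differentiableOn_tsum_of_summable_norm
      (u := fun k => ((‖w‖ + 1) ^ 2 / 4) ^ k / (Nat.factorial k : ℝ))
      (Real.summable_pow_div_factorial _) (fun k => ?_) isOpen_ball fun k z hz => ?_
    · unfold tm
      fun_prop
    · rw [mem_ball_zero_iff] at hz
      exact norm_tm_le' k z hz.le
  exact (h w (by rw [mem_ball_zero_iff]; linarith)).differentiableAt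
    (isOpen_ball.mem_nhds (by rw [mem_ball_zero_iff]; linarith))

lemma tm_zero (w : ℂ) : tm 0 w = 1 := by simp [tm]

lemma I0_sub (w : ℂ) : I0 w - 1 = ∑' k, tm (k + 1) w := by
  rw [I0_eq, (summable_tm w).tsum_eq_zero_add, tm_zero]
  ring

lemma norm_I0_sub {w : ℂ} (hw : ‖w‖ ≤ 1) : ‖I0 w - 1‖ ≤ ‖w‖ ^ 2 / 3 := by
  rw [I0_sub]
  have h1 : ∀ k, ‖tm (k + 1) w‖ ≤ ‖w‖ ^ 2 / 4 * (1 / 4) ^ k := by
    intro k
    refine (norm_tm_le _ _).trans ?_
    rw [pow_succ, mul_comm]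
    have h2 : ‖w‖ ^ 2 / 4 ≤ 1 / 4 := by
      have : ‖w‖ ^ 2 ≤ 1 := by nlinarith [norm_nonneg w]
      linarith
    gcongr
  have h3 : HasSum (fun k : ℕ => ‖w‖ ^ 2 / 4 * (1 / 4 : ℝ) ^ k) (‖w‖ ^ 2 / 4 * (1 - 1 / 4)⁻¹) :=
    (hasSum_geometric_of_lt_one (by norm_num) (by norm_num)).mul_left _
  have h4 := tsum_of_norm_bounded h3 h1
  refine h4.trans (le_of_eq ?_)
  norm_num
  ring

lemma I0_slit {w : ℂ} (hw : ‖w‖ ≤ 1) : I0 w ∈ slitPlane := by
  have h1 := norm_I0_sub hw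
  have h2 : ‖w‖ ^ 2 ≤ 1 := by nlinarith [norm_nonneg w]
  have h3 : |(I0 w - 1).re| ≤ ‖I0 w - 1‖ := abs_re_le_norm _
  rw [sub_re, one_re, abs_le] at h3
  exact Or.inl (by linarith [h3.1])

lemma I0_zero : I0 0 = 1 := by
  have h := norm_I0_sub (w := 0) (by simp)
  simp only [norm_zero] at h
  have h2 : ‖I0 0 - 1‖ = 0 := le_antisymm (by simpa using h) (norm_nonneg _)
  rw [norm_eq_zero, sub_eq_zero] at h2
  exact h2

/-- real values -/
lemma tm_real (k : ℕ) (x : ℝ) :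
    tm k (x : ℂ) = (((x / 2) ^ (2 * k) / ((Nat.factorial k : ℝ) ^ 2) : ℝ) : ℂ) := by
  unfold tm
  push_cast
  rfl

lemma I0_real (x : ℝ) : I0 (x : ℂ) = ((I0 (x : ℂ)).re : ℂ) := by
  rw [I0_eq]
  simp only [tm_real]
  rw [← Complex.ofReal_tsum, Complex.ofReal_re]

lemma one_le_I0 (x : ℝ) : 1 ≤ (I0 (x : ℂ)).re := by
  have hs : Summable fun k : ℕ => (x / 2) ^ (2 * k) / ((Nat.factorial k : ℝ) ^ 2) := by
    have := summable_tm (x : ℂ)
    simp only [tm_real] at this
    exact_mod_cast this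
  have h : (I0 (x : ℂ)).re = ∑' k : ℕ, (x / 2) ^ (2 * k) / ((Nat.factorial k : ℝ) ^ 2) := by
    rw [I0_eq]
    simp only [tm_real]
    rw [← Complex.ofReal_tsum, Complex.ofReal_re]
  rw [h, hs.tsum_eq_zero_add]
  have h2 : 0 ≤ ∑' k : ℕ, (x / 2) ^ (2 * (k + 1)) / ((Nat.factorial (k + 1) : ℝ) ^ 2) := by
    apply tsum_nonneg
    intro k
    rw [pow_mul]
    positivity
  simp only [mul_zero, pow_zero, Nat.factorial_zero, Nat.cast_one, one_pow, div_one]
  linarith

lemma log_I0_real (x : ℝ) : Complex.log (I0 (x : ℂ)) = (Real.log (I0 (x : ℂ)).re : ℂ) := by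
  conv_lhs => rw [I0_real x]
  rw [← Complex.ofReal_log (by linarith [one_le_I0 x])]

lemma log_I0_bound {x : ℝ} (h0 : 0 ≤ x) (h1 : x ≤ 1) :
    0 ≤ Real.log (I0 (x : ℂ)).re ∧ Real.log (I0 (x : ℂ)).re ≤ x := by
  refine ⟨Real.log_nonneg (one_le_I0 x), ?_⟩
  have h2 := Real.log_le_sub_one_of_pos (show 0 < (I0 (x : ℂ)).re by linarith [one_le_I0 x])
  have hx : ‖(x : ℂ)‖ = x := by rw [Complex.norm_real, Real.norm_of_nonneg h0]
  have h3 := norm_I0_sub (w := (x : ℂ)) (by rw [hx]; exact h1)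
  rw [hx] at h3
  have h4 : |(I0 (x : ℂ) - 1).re| ≤ ‖I0 (x : ℂ) - 1‖ := abs_re_le_norm _
  rw [sub_re, one_re, abs_le] at h4
  nlinarith [h4.2]

/-! ### The contour integral for one zero -/

lemma circle_inv (f : ℂ → ℂ) : (∮ t in C(0, 1 / 2), f t) = ∮ s in C(0, 2), f s⁻¹ * (s⁻¹ ^ 2) := by
  unfold circleIntegral
  have h := intervalIntegral.integral_comp_sub_left
    (f := fun θ : ℝ => deriv (circleMap 0 (1 / 2)) θ • f (circleMap 0 (1 / 2) θ))
    (a := 0) (b := 2 * Real.pi) (2 * Real.pi)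
  simp only [sub_self, sub_zero] at h
  rw [← h]
  refine intervalIntegral.integral_congr fun θ _ => ?_
  have e : (circleMap 0 2 θ)⁻¹ = circleMap 0 (1 / 2) (2 * Real.pi - θ) := by
    simp only [circleMap_zero]
    rw [mul_inv, ← Complex.exp_neg]
    have : Complex.exp (((2 * Real.pi - θ : ℝ) : ℂ) * I) = Complex.exp (-(θ * I)) := by
      push_cast
      rw [sub_mul, Complex.exp_sub, Complex.exp_two_pi_mul_I, Complex.exp_neg]
      ring
    rw [this]
    push_cast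
    ring
  have hne : circleMap 0 2 θ ≠ 0 := circleMap_ne_center (by norm_num)
  simp only [deriv_circleMap, smul_eq_mul]
  rw [← e]
  field_simp

lemma contour {a lam : ℝ} (ha : 1 ≤ a) (h0 : 0 < lam) (h1 : lam ≤ 1 / 8) :
    (∮ t in C(0, 1 / 2), 1 / ((a : ℂ) - t) * Complex.log (I0 (4 * lam / t))) =
      2 * Real.pi * I * (Real.log (I0 ((4 * lam / a : ℝ) : ℂ)).re : ℂ) := by
  rw [circle_inv]
  have hb : ∀ s : ℂ, ‖s‖ ≤ 2 → ‖(4 * lam : ℂ) * s‖ ≤ 1 := by
    intro s hs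
    rw [norm_mul, norm_mul, Complex.norm_real, Real.norm_of_nonneg h0.le]
    simp only [Complex.norm_ofNat]
    nlinarith [norm_nonneg s]
  have hc : DiffContOnCl ℂ (fun s : ℂ => Complex.log (I0 ((4 * lam : ℂ) * s))) (ball 0 2) := by
    have hd : ∀ s ∈ closedBall (0 : ℂ) 2,
        DifferentiableAt ℂ (fun s : ℂ => Complex.log (I0 ((4 * lam : ℂ) * s))) s := by
      intro s hs
      rw [mem_closedBall_zero_iff] at hs
      have h2 : DifferentiableAt ℂ (fun s : ℂ => I0 ((4 * lam : ℂ) * s)) s :=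
        (diff_I0 _).comp s (by fun_prop)
      exact h2.clog (I0_slit (hb s hs))
    refine DifferentiableOn.diffContOnCl ?_
    rw [closure_ball _ (by norm_num)]
    exact fun s hs => (hd s hs).differentiableWithinAt
  have ha0 : (a : ℂ) ≠ 0 := by
    have : a ≠ 0 := by linarith
    exact_mod_cast this
  have c1 := hc.circleIntegral_sub_inv_smul (w := (a : ℂ)⁻¹) (by
    rw [mem_ball_zero_iff, norm_inv, Complex.norm_real, Real.norm_of_nonneg (by linarith)]
    have := inv_le_one_of_one_le₀ ha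
    linarith)
  have c2 := hc.circleIntegral_sub_inv_smul (w := 0) (by simp)
  simp only [smul_eq_mul, sub_zero, mul_zero, I0_zero, Complex.log_one] at c1 c2
  have hci : ∀ w : ℂ, w ∈ ball (0 : ℂ) 2 → CircleIntegrable
      (fun s : ℂ => (s - w)⁻¹ * Complex.log (I0 ((4 * lam : ℂ) * s))) 0 2 := by
    intro w hw
    refine ContinuousOn.circleIntegrable (by norm_num) ?_
    refine ContinuousOn.mul ?_ ?_
    · refine ContinuousOn.inv₀ (by fun_prop) fun s hs => ?_
      rw [mem_sphere_zero_iff_norm] at hs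
      rw [mem_ball_zero_iff] at hw
      intro h
      rw [sub_eq_zero] at h
      rw [h] at hs
      linarith
    · exact hc.continuousOn_ball.mono sphere_subset_closedBall
  have e : (∮ s in C(0, 2), 1 / ((a : ℂ) - s⁻¹) * Complex.log (I0 (4 * lam / s⁻¹)) * s⁻¹ ^ 2) =
      ∮ s in C(0, 2), ((s - (a : ℂ)⁻¹)⁻¹ * Complex.log (I0 ((4 * lam : ℂ) * s)) -
        s⁻¹ * Complex.log (I0 ((4 * lam : ℂ) * s))) := by
    refine circleIntegral.integral_congr (by norm_num) fun s hs => ?_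
    rw [mem_sphere_zero_iff_norm] at hs
    have hs0 : s ≠ 0 := by
      intro h
      rw [h, norm_zero] at hs
      norm_num at hs
    have hs1 : s * a - 1 ≠ 0 := by
      intro h
      have h2 : s * a = 1 := by linear_combination h
      have h3 := congrArg norm h2
      rw [norm_mul, hs, Complex.norm_real, Real.norm_of_nonneg (by linarith), norm_one] at h3
      linarith
    have hs2 : (a : ℂ) - s⁻¹ ≠ 0 := by
      intro h
      apply hs1
      have : s * ((a : ℂ) - s⁻¹) = 0 := by rw [h, mul_zero]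
      rw [mul_sub, mul_inv_cancel₀ hs0] at this
      exact this
    have hs3 : s - (a : ℂ)⁻¹ ≠ 0 := by
      intro h
      apply hs1
      have : (s - (a : ℂ)⁻¹) * a = 0 := by rw [h, zero_mul]
      rw [sub_mul, inv_mul_cancel₀ ha0] at this
      exact this
    have e2 : (4 * lam : ℂ) / s⁻¹ = 4 * lam * s := by rw [div_inv_eq_mul]
    simp only [e2]
    have e3 : 1 / ((a : ℂ) - s⁻¹) * s⁻¹ ^ 2 = (s - (a : ℂ)⁻¹)⁻¹ - s⁻¹ := by
      have h5 : (a : ℂ) - s⁻¹ = (s * a - 1) / s := by field_simp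
      have h6 : s - (a : ℂ)⁻¹ = (s * a - 1) / a := by field_simp
      rw [h5, h6]
      field_simp
      ring
    rw [mul_right_comm, e3]
    ring
  have hi2 := hci 0 (by simp)
  simp only [sub_zero] at hi2
  rw [e, circleIntegral.integral_sub (hci _ (by
    rw [mem_ball_zero_iff, norm_inv, Complex.norm_real, Real.norm_of_nonneg (by linarith)]
    have := inv_le_one_of_one_le₀ ha
    linarith)) hi2, c1, c2]
  have e4 : (4 * lam : ℂ) * (a : ℂ)⁻¹ = ((4 * lam / a : ℝ) : ℂ) := by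
    push_cast
    ring
  rw [e4, log_I0_real]
  ring

/-! ### The sum over the zeros -/

lemma den_bound (γ : ℝ) {t : ℂ} (ht : ‖t‖ = 1 / 2) :
    ‖(1 + (γ : ℂ) ^ 2 - t)⁻¹‖ ≤ 2 / (1 + γ ^ 2) := by
  have h1 : (1 + γ ^ 2) / 2 ≤ ‖1 + (γ : ℂ) ^ 2 - t‖ := by
    have h2 := norm_sub_norm_le (1 + (γ : ℂ) ^ 2) t
    have h3 : ‖(1 + (γ : ℂ) ^ 2)‖ = 1 + γ ^ 2 := by
      have : (1 + (γ : ℂ) ^ 2) = ((1 + γ ^ 2 : ℝ) : ℂ) := by push_cast; rfl
      rw [this, Complex.norm_real, Real.norm_of_nonneg (by positivity)]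
    rw [h3, ht] at h2
    nlinarith [sq_nonneg γ]
  rw [norm_inv]
  have h4 : (0 : ℝ) < (1 + γ ^ 2) / 2 := by positivity
  calc ‖1 + (γ : ℂ) ^ 2 - t‖⁻¹ ≤ ((1 + γ ^ 2) / 2)⁻¹ := by gcongr
    _ = 2 / (1 + γ ^ 2) := by rw [inv_div]

theorem t_CT : S_CT := by
  intro m H lam hm hs hH h0 h1
  have hpos : ∀ γ : ℝ, (0 : ℝ) < 1 + γ ^ 2 := fun γ => by positivity
  have hle : ∀ γ : ℝ, 4 * lam / (1 + γ ^ 2) ≤ 1 := by
    intro γ
    rw [div_le_one (hpos γ)]
    nlinarith [sq_nonneg γ]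
  have hsum : Summable (fun γ : ℝ => m γ *
      Real.log (I0 ((4 * lam / (1 + γ ^ 2) : ℝ) : ℂ)).re) := by
    refine Summable.of_nonneg_of_le (fun γ => ?_) (fun γ => ?_) (hs.mul_left (4 * lam))
    · exact mul_nonneg (hm γ) (log_I0_bound (by positivity) (hle γ)).1
    · have h2 := (log_I0_bound (x := 4 * lam / (1 + γ ^ 2)) (by positivity) (hle γ)).2
      calc _ ≤ m γ * (4 * lam / (1 + γ ^ 2)) := mul_le_mul_of_nonneg_left h2 (hm γ)
        _ = _ := by ring
  refine ⟨hsum, ?_⟩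
  -- the support of `m`
  set S : Set ℝ := Function.support m with hS
  have hSc : S.Countable := by
    have h2 := hs.countable_support
    refine h2.mono fun γ hγ => ?_
    rw [Function.mem_support] at hγ ⊢
    exact div_ne_zero hγ (hpos γ).ne'
  haveI : Countable S := hSc.to_subtype
  -- the logarithm on the circle
  set g : ℝ → ℂ := fun θ => Complex.log (I0 (4 * lam / circleMap 0 (1 / 2) θ)) with hg
  have hnorm : ∀ θ : ℝ, ‖circleMap 0 (1 / 2) θ‖ = 1 / 2 := by
    intro θ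
    rw [norm_circleMap_zero]
    norm_num
  have hne : ∀ θ : ℝ, circleMap 0 (1 / 2) θ ≠ 0 := by
    intro θ h
    have := hnorm θ
    rw [h, norm_zero] at this
    norm_num at this
  have hgc : Continuous g := by
    have h2 : Continuous fun θ : ℝ => (4 * lam : ℂ) / circleMap 0 (1 / 2) θ :=
      continuous_const.div (continuous_circleMap 0 (1 / 2)) hne
    refine Continuous.clog (diff_I0.continuous.comp h2) fun θ => I0_slit ?_
    rw [norm_div, hnorm, norm_mul, Complex.norm_real, Real.norm_of_nonneg h0.le]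
    simp only [Complex.norm_ofNat]
    rw [div_le_one (by norm_num)]
    linarith
  obtain ⟨B, hB⟩ := (isCompact_uIcc (a := (0 : ℝ)) (b := 2 * Real.pi)).exists_bound_of_continuousOn
    hgc.continuousOn
  have hB0 : 0 ≤ B := (norm_nonneg _).trans (hB 0 left_mem_uIcc)
  have hdc : ∀ γ : ℝ, Continuous fun θ : ℝ => (1 + (γ : ℂ) ^ 2 - circleMap 0 (1 / 2) θ)⁻¹ := by
    intro γ
    refine Continuous.inv₀ (continuous_const.sub (continuous_circleMap 0 (1 / 2))) fun θ h => ?_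
    rw [sub_eq_zero] at h
    have h2 := hnorm θ
    rw [← h] at h2
    have h3 : ‖(1 + (γ : ℂ) ^ 2)‖ = 1 + γ ^ 2 := by
      have : (1 + (γ : ℂ) ^ 2) = ((1 + γ ^ 2 : ℝ) : ℂ) := by push_cast; rfl
      rw [this, Complex.norm_real, Real.norm_of_nonneg (by positivity)]
    rw [h3] at h2
    nlinarith [sq_nonneg γ]
  have hderiv : ∀ θ : ℝ, ‖deriv (circleMap 0 (1 / 2)) θ‖ = 1 / 2 := by
    intro θ
    rw [deriv_circleMap, norm_mul, hnorm, Complex.norm_I, mul_one]
  set F : S → ℝ → ℂ := fun γ θ => deriv (circleMap 0 (1 / 2)) θ •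
    ((m γ : ℂ) * (1 + ((γ : ℝ) : ℂ) ^ 2 - circleMap 0 (1 / 2) θ)⁻¹ * g θ) with hF
  have hFs : ∀ θ : ℝ, HasSum (fun γ : ℝ => (m γ : ℂ) * (1 + (γ : ℂ) ^ 2 - circleMap 0 (1 / 2) θ)⁻¹)
      (H (circleMap 0 (1 / 2) θ)) := by
    intro θ
    rw [hH _ (hnorm θ)]
    simp only [div_eq_mul_inv]
    refine Summable.hasSum (Summable.of_norm_bounded (hs.mul_left 2) fun γ => ?_)
    rw [norm_mul, Complex.norm_real, Real.norm_of_nonneg (hm γ)]
    calc _ ≤ m γ * (2 / (1 + γ ^ 2)) :=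
          mul_le_mul_of_nonneg_left (den_bound γ (hnorm θ)) (hm γ)
      _ = _ := by ring
  have key : HasSum (fun γ : S => ∫ θ in (0 : ℝ)..2 * Real.pi, F γ θ)
      (∮ t in C(0, 1 / 2), H t * Complex.log (I0 (4 * lam / t))) := by
    unfold circleIntegral
    refine intervalIntegral.hasSum_integral_of_dominated_convergence
      (fun γ _ => 1 / 2 * (m γ * (2 / (1 + (γ : ℝ) ^ 2)) * B)) (fun γ => ?_) (fun γ => ?_)
      (Eventually.of_forall fun θ _ => ?_) ?_ (Eventually.of_forall fun θ _ => ?_)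
    · have hc : Continuous (F γ) := by
        simp only [hF, deriv_circleMap, smul_eq_mul]
        exact ((continuous_circleMap 0 (1 / 2)).mul continuous_const).mul
          ((continuous_const.mul (hdc γ)).mul hgc)
      exact hc.aestronglyMeasurable
    · refine Eventually.of_forall fun θ hθ => ?_
      simp only [hF]
      rw [norm_smul, hderiv, norm_mul, norm_mul, Complex.norm_real, Real.norm_of_nonneg (hm γ)]
      have h2 := den_bound γ (hnorm θ)
      have h3 := hB θ (uIoc_subset_uIcc hθ)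
      have h4 := hm γ
      gcongr
    · have h2 : Summable fun γ : ℝ => 1 / 2 * (m γ * (2 / (1 + γ ^ 2)) * B) := by
        refine (hs.mul_left B).congr fun γ => ?_
        ring
      exact h2.subtype S
    · exact continuous_const.intervalIntegrable _ _
    · refine HasSum.const_smul _ (HasSum.mul_right _ ?_)
      have hsub : Function.support (fun γ : ℝ => (m γ : ℂ) *
          (1 + (γ : ℂ) ^ 2 - circleMap 0 (1 / 2) θ)⁻¹) ⊆ S := by
        intro γ hγ hm0
        apply hγ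
        simp only
        rw [hm0]
        simp
      exact (hasSum_subtype_iff_of_support_subset hsub).2 (hFs θ)
  have hint : ∀ γ : S, ∫ θ in (0 : ℝ)..2 * Real.pi, F γ θ = 2 * Real.pi * I *
      ((m γ * Real.log (I0 ((4 * lam / (1 + (γ : ℝ) ^ 2) : ℝ) : ℂ)).re : ℝ) : ℂ) := by
    intro γ
    have h2 := contour (a := 1 + (γ : ℝ) ^ 2) (lam := lam) (by nlinarith [sq_nonneg (γ : ℝ)]) h0 h1
    have h3 : ∫ θ in (0 : ℝ)..2 * Real.pi, F γ θ = (m γ : ℂ) *
        ∮ t in C(0, 1 / 2), 1 / (((1 + (γ : ℝ) ^ 2 : ℝ) : ℂ) - t) *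
          Complex.log (I0 (4 * lam / t)) := by
      unfold circleIntegral
      rw [← intervalIntegral.integral_const_mul]
      refine intervalIntegral.integral_congr fun θ _ => ?_
      simp only [hF, hg, smul_eq_mul]
      push_cast
      rw [one_div]
      ring
    rw [h3, h2]
    push_cast
    ring
  simp only [hint] at key
  have hsub : Function.support (fun γ : ℝ => 2 * Real.pi * I *
      ((m γ * Real.log (I0 ((4 * lam / (1 + γ ^ 2) : ℝ) : ℂ)).re : ℝ) : ℂ)) ⊆ S := by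
    intro γ hγ hm0
    apply hγ
    simp only
    rw [hm0]
    simp
  have key2 := (hasSum_subtype_iff_of_support_subset hsub).1 key
  have key3 := (Complex.hasSum_ofReal.2 hsum.hasSum).mul_left (2 * Real.pi * I)
  exact key2.unique key3

end Pool.Agent.Q174.LQ
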